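import Pool.Agent.Work.MP_4bd310_co.Final

set_option autoImplicit false
set_option linter.unusedSectionVars false
set_option linter.unusedVariables false

namespace Pool.Agent.Work.MP_4bd310_co.Kept.WienerEcc

open Finset Pool.Agent.Work.MP_4bd310_co

/-- The Wiener index: half the sum of the distances over all ordered pairs of vertices. -/
noncomputable def wiener {V : Type*} [Fintype V] (G : SimpleGraph V) : ℚ :=
  (1 / 2) * ∑ u, ∑ v, (G.dist u v : ℚ)

/-- The total eccentricity: the sum of the eccentricities of all vertices. -/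
noncomputable def totalEcc {V : Type*} [Fintype V] (G : SimpleGraph V) : ℚ :=
  ∑ u, ((G.eccent u).toNat : ℚ)

lemma even_sum {V : Type*} [DecidableEq V] (f : V → V → ℤ) (hs : ∀ u v, f u v = f v u)
    (h0 : ∀ u, f u u = 0) (s : Finset V) : ∃ w : ℤ, ∑ u ∈ s, ∑ v ∈ s, f u v = 2 * w := by
  induction s using Finset.induction_on with
  | empty => exact ⟨0, by simp⟩
  | insert a s ha ih =>
    obtain ⟨w, hw⟩ := ih
    refine ⟨w + ∑ u ∈ s, f u a, ?_⟩
    rw [sum_insert ha, sum_insert ha, h0]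
    have h1 : ∀ u ∈ s, ∑ v ∈ insert a s, f u v = f u a + ∑ v ∈ s, f u v := by
      intro u _
      rw [sum_insert ha]
    have h2 : ∑ v ∈ s, f a v = ∑ u ∈ s, f u a := sum_congr rfl (fun v _ => hs a v)
    rw [sum_congr rfl h1, sum_add_distrib, hw, h2]
    ring

lemma g_mod (n : ℤ) : (∃ q, g n = 12 * q) ∨ (∃ q, g n = 12 * q + 3) := by
  have key : ∀ x : ZMod 12, 2 * x ^ 3 - 9 * x ^ 2 + 4 * x + 3 = 0 ∨
      2 * x ^ 3 - 9 * x ^ 2 + 4 * x + 3 = 3 := by decide
  rcases key (n : ZMod 12) with h | h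
  · left
    have h1 : ((g n : ℤ) : ZMod 12) = ((0 : ℤ) : ZMod 12) := by
      unfold g
      push_cast
      rw [h]
    rw [ZMod.intCast_eq_intCast_iff_dvd_sub] at h1
    obtain ⟨q, hq⟩ := h1
    refine ⟨-q, ?_⟩
    push_cast at hq
    omega
  · right
    have h1 : ((g n : ℤ) : ZMod 12) = ((3 : ℤ) : ZMod 12) := by
      unfold g
      push_cast
      rw [h]
    rw [ZMod.intCast_eq_intCast_iff_dvd_sub] at h1
    obtain ⟨q, hq⟩ := h1
    refine ⟨-q, ?_⟩
    push_cast at hq
    omega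

lemma path_value {V : Type*} [Fintype V] {G : SimpleGraph V} (hG : G.Connected)
    (f : G ≃g SimpleGraph.pathGraph (Fintype.card V)) :
    6 * (∑ u, ∑ v, (G.dist u v : ℤ)) - 12 * ∑ u, ((G.eccent u).toNat : ℤ) + 3
      ≥ g (Fintype.card V) := by
  set n := Fintype.card V with hn
  have hne : Nonempty V := hG.nonempty
  have hn0 : 0 < n := Fintype.card_pos
  have hP : (SimpleGraph.pathGraph n).Connected := by
    obtain ⟨m, hm⟩ : ∃ m, n = m + 1 := ⟨n - 1, by omega⟩
    rw [hm]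
    exact SimpleGraph.pathGraph_connected m
  have hd : ∀ u v, (G.dist u v : ℤ) = |((f u : ℕ) : ℤ) - (f v : ℕ)| := by
    intro u v
    rw [← iso_dist f hG hP u v]
    exact path_dist _ _
  have hS : ∑ u, ∑ v, (G.dist u v : ℤ) = ∑ i ∈ range n, ∑ j ∈ range n, |(i : ℤ) - j| := by
    rw [← Fin.sum_univ_eq_sum_range (fun i => ∑ j ∈ range n, |(i : ℤ) - j|) n]
    rw [← Equiv.sum_comp f.toEquiv]
    apply sum_congr rfl
    intro u _
    rw [← Fin.sum_univ_eq_sum_range (fun j => |((f.toEquiv u : ℕ) : ℤ) - j|) n,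
      ← Equiv.sum_comp f.toEquiv]
    apply sum_congr rfl
    intro v _
    exact hd u v
  have hE : ∑ u, ((G.eccent u).toNat : ℤ)
      ≤ ∑ i ∈ range n, (if i < n / 2 then ((n : ℤ) - 1) - i else (i : ℤ)) := by
    rw [← Fin.sum_univ_eq_sum_range (fun i => if i < n / 2 then ((n : ℤ) - 1) - i else (i : ℤ)) n]
    rw [← Equiv.sum_comp f.toEquiv]
    apply sum_le_sum
    intro u _
    obtain ⟨v, hv⟩ := exists_dist_eq_ecc hG u
    rw [← hv, hd]
    have h1 : ((f.toEquiv u : Fin n) : ℕ) = (f u : ℕ) := rfl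
    rw [h1]
    have h2 := (f u).isLt
    have h3 := (f v).isLt
    rw [abs_le]
    split_ifs with h4
    · omega
    · omega
  have h3 := sum_sum_abs n
  have h4 := RT.sum_split (n / 2) n (by omega) ((n : ℤ) - 1)
  rw [hS]
  have h5 : ((n / 2 : ℕ) : ℤ) * 2 = n ∨ ((n / 2 : ℕ) : ℤ) * 2 + 1 = n := by omega
  generalize (∑ i ∈ range n, if i < n / 2 then ((n : ℤ) - 1) - i else (i : ℤ)) = X at h4 hE
  generalize (∑ i ∈ range n, ∑ j ∈ range n, |(i : ℤ) - j|) = Z at h3 ⊢
  generalize ((n / 2 : ℕ) : ℤ) = r at h4 h5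
  generalize (∑ u, ((G.eccent u).toNat : ℤ)) = E at hE ⊢
  unfold g
  rcases h5 with h5 | h5 <;> rw [← h5] at h3 h4 ⊢ <;> linarith

/-- For a finite connected graph of order `n` with radius at least four, the Wiener index minus
the total eccentricity is at most the value attained by the path, with equality exactly for
paths. -/
theorem result {V : Type*} [Fintype V] (G : SimpleGraph V) (hG : G.Connected)
    (hrad : 4 ≤ G.radius) :
    (wiener G - totalEcc G ≤
      (⌊(1 / 6 : ℚ) * (Fintype.card V : ℚ) ^ 3 - (3 / 4 : ℚ) * (Fintype.card V : ℚ) ^ 2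
        + (1 / 3 : ℚ) * (Fintype.card V : ℚ) + 1 / 4⌋ : ℚ)) ∧
    (wiener G - totalEcc G =
      (⌊(1 / 6 : ℚ) * (Fintype.card V : ℚ) ^ 3 - (3 / 4 : ℚ) * (Fintype.card V : ℚ) ^ 2
        + (1 / 3 : ℚ) * (Fintype.card V : ℚ) + 1 / 4⌋ : ℚ) ↔
      Nonempty (G ≃g SimpleGraph.pathGraph (Fintype.card V))) := by
  classical
  set n := Fintype.card V with hn
  have hne : Nonempty V := hG.nonempty
  have hradtop : G.radius ≠ ⊤ := SimpleGraph.radius_ne_top_iff.mpr hG
  have hr4 : 4 ≤ (G.radius).toNat := by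
    have := ENat.toNat_le_toNat hrad hradtop
    simpa using this
  obtain ⟨T, a, b, C, h, hda⟩ := exists_cfg hG hr4
  set eG : V → ℕ := fun u => (G.eccent u).toNat with heG
  have he1 : ∀ u v, G.dist u v ≤ eG u := fun u v => dist_le_ecc hG u v
  have he2 : ∀ u, T.dep a ≤ eG u := fun u => by rw [hda]; exact rad_le_ecc hG u
  obtain ⟨w, hw⟩ := even_sum (fun u v => (G.dist u v : ℤ))
    (fun u v => by rw [SimpleGraph.dist_comm]) (fun u => by simp) univ
  set E : ℤ := ∑ u, (eG u : ℤ) with hE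
  -- rational values
  have hval : wiener G - totalEcc G = ((w - E : ℤ) : ℚ) := by
    unfold wiener totalEcc
    have h1 : ∑ u, ∑ v, (G.dist u v : ℚ) = ((∑ u, ∑ v, (G.dist u v : ℤ) : ℤ) : ℚ) := by
      push_cast
      rfl
    rw [h1, hw, hE]
    push_cast
    ring
  have hx : (1 / 6 : ℚ) * (n : ℚ) ^ 3 - (3 / 4 : ℚ) * (n : ℚ) ^ 2 + (1 / 3 : ℚ) * (n : ℚ) + 1 / 4
      = ((g n : ℤ) : ℚ) / 12 := by
    unfold g
    push_cast
    ring
  -- main estimates
  have hS1 := step1 C h he1 he2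
  rw [hw, ← hE] at hS1
  have hsub : T.S0 a b ⊆ univ := subset_univ _
  have hcardS : (T.S0 a b).card ≤ n := card_le_univ _
  have hmain := h.main (n - (T.S0 a b).card) univ hsub (fun _ _ => mem_univ _)
    (by rw [card_univ]; omega)
  rw [card_univ, ← hn] at hmain
  have hupper : 12 * (w - E) ≤ g n := by
    have := hS1.1
    have h2 : (0 : ℤ) ≤ ((n - (T.S0 a b).card : ℕ) : ℤ) := by positivity
    linarith
  rw [hval, hx]
  have hfl : (w - E) ≤ ⌊((g n : ℤ) : ℚ) / 12⌋ := by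
    rw [Int.le_floor, le_div_iff₀ (by norm_num)]
    have : ((w - E : ℤ) : ℚ) * 12 = ((12 * (w - E) : ℤ) : ℚ) := by push_cast; ring
    rw [this]
    exact_mod_cast hupper
  refine ⟨by exact_mod_cast hfl, ?_⟩
  constructor
  · intro heq
    have heq' : w - E = ⌊((g n : ℤ) : ℚ) / 12⌋ := by exact_mod_cast heq
    -- hence 12 (w - E) + 12 > g n
    have hlt : g n < 12 * (w - E) + 12 := by
      have h1 : ((g n : ℤ) : ℚ) / 12 < ⌊((g n : ℤ) : ℚ) / 12⌋ + 1 := Int.lt_floor_add_one _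
      rw [← heq', div_lt_iff₀ (by norm_num)] at h1
      have h2 : (((w - E : ℤ) : ℚ) + 1) * 12 = ((12 * (w - E) + 12 : ℤ) : ℚ) := by push_cast; ring
      rw [h2] at h1
      exact_mod_cast h1
    have hmod := g_mod n
    by_cases hall : ∀ u, u ∈ T.S0 a b
    · by_cases hex : ∃ x y, inA T a x ∧ ¬ inA T a y ∧ G.Adj x y ∧ 1 ≤ T.dep y
      · exfalso
        have h1 := hS1.2 hall hex
        have h2 : (0 : ℤ) ≤ ((n - (T.S0 a b).card : ℕ) : ℤ) := by positivity
        rcases hmod with ⟨q, hq⟩ | ⟨q, hq⟩ <;> omega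
      · exact iso_of_all C h hall hex
    · exfalso
      push Not at hall
      obtain ⟨u, hu⟩ := hall
      have hlt2 : (T.S0 a b).card < n := by
        rw [hn, ← card_univ]
        exact card_lt_card ⟨hsub, fun hh => hu (hh (mem_univ u))⟩
      have h1 := hS1.1
      have h2 : (1 : ℤ) ≤ ((n - (T.S0 a b).card : ℕ) : ℤ) := by omega
      rcases hmod with ⟨q, hq⟩ | ⟨q, hq⟩ <;> omega
  · rintro ⟨f⟩
    have h1 := path_value hG f
    rw [hw] at h1
    have h2 : g n ≤ 12 * (w - E) + 3 := by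
      have h3 : ∑ u, ((G.eccent u).toNat : ℤ) = E := rfl
      rw [h3] at h1
      linarith
    have h3 : ⌊((g n : ℤ) : ℚ) / 12⌋ = w - E := by
      rw [Int.floor_eq_iff]
      constructor
      · rw [le_div_iff₀ (by norm_num)]
        have : ((w - E : ℤ) : ℚ) * 12 = ((12 * (w - E) : ℤ) : ℚ) := by push_cast; ring
        rw [this]
        exact_mod_cast hupper
      · rw [div_lt_iff₀ (by norm_num)]
        have h4 : (((w - E : ℤ) : ℚ) + 1) * 12 = ((12 * (w - E) + 12 : ℤ) : ℚ) := by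
          push_cast; ring
        rw [h4]
        have h5 : g n < 12 * (w - E) + 12 := by linarith
        exact_mod_cast h5
    rw [h3]

end Pool.Agent.Work.MP_4bd310_co.Kept.WienerEcc
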